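import Pool.Agent.Q50.KV.Main

/-!
# Homologically trivial cycles on Kummer varieties: a criterion for one variety

Let `A` be an abelian variety over an algebraically closed field such as the algebraic numbers, and
`Km A` its Kummer variety, the quotient by `-1` of the blow-up of `A` in the points of order two. It
has no odd cohomology, so the question of the problem predicts that it has no homologically trivial
cycles modulo torsion, in any codimension. We show that this holds in codimension `m` if and only if
every homologically trivial cycle `z` of codimension `m` on `A` is odd, `(-1)^* z = -z`; more generally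
we show this for the Kummer variety of any variety with an involution of this kind.
-/

open CategoryTheory AlgebraicGeometry

universe u v w

namespace Pool.Agent.Results.MP_32dfd1_ag.KummerCriterion

open Pool.Agent.H914 Pool.Agent.H914.VarClass Pool.Agent.H914.VarClass.Obj Pool.Agent.W492.BB
  Pool.Agent.TH133 Pool.Agent.Q28.PV Pool.Agent.Q28.AL Pool.Agent.Q50.KV

/-- **The criterion.** Let `C` be the Chow theory with rational coefficients and `H` a Weil
cohomology theory on the smooth projective varieties over an algebraically closed field.
`Question H Y m` is the statement of the problem: if `H^(2m-1)(Y) = 0` then `CH^m(Y)_hom = 0`.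

Let `Y` be the Kummer variety of a variety `X` with an involution `σ` which acts as `(-1)^i` on
`H^i(X)` and has isolated fixed points (for example an abelian variety with `-1`). Then `Y` has no odd
cohomology, and for every `m` the question for `Y` and `m` has a positive answer iff `z = 0` for all
`σ`-invariant `z` in `CH^m(X)_hom`, and also iff `σ^* z = -z` for all `z` in `CH^m(X)_hom`. -/
theorem result {k : Type u} [Field k] {𝒱 : VarClass k} {C : TheoryData.{u, v, 0} 𝒱 ℚ}
    [IsChowProj C] {K : Type w} [Field K] {H : WeilTheoryData.{u, v, w} C K} [IsWeilProj H]
    (X Y : 𝒱.Obj) (σ : X ⟶ X) (h : IsKummer H σ Y) :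
    NoOddCohomology H Y ∧ ∀ m : ℕ,
      (Question H Y m ↔ ∀ z : C.A X, HomTriv H X m z → C.up σ z = z → z = 0) ∧
      (Question H Y m ↔ ∀ z : C.A X, HomTriv H X m z → C.up σ z = -z) := by
  refine ⟨noOdd h, fun m => ⟨question_iff h m, ?_⟩⟩
  rw [question_iff h m]
  constructor
  · intro h1 z hz
    have h3 : z + C.pull σ z = 0 := by
      refine h1 _ (hz.add (homPull hz _)) ?_
      change C.pull σ (z + C.pull σ z) = z + C.pull σ z
      rw [map_add, ← C.pull_comp, h.1.1, C.pull_id, add_comm]
    rw [add_comm] at h3
    exact eq_neg_of_add_eq_zero_left h3
  · intro h1 z hz hinv
    have h2 := h1 z hz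
    rw [hinv] at h2
    exact zero_of_odd h2

end Pool.Agent.Results.MP_32dfd1_ag.KummerCriterion
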