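import Pool.Agent.Q50.KV.Main

/-!
# Kummer varieties of products and exterior products of homologically trivial cycles

Kummer varieties have no odd cohomology, so the question of the problem predicts that they have no
homologically trivial cycles modulo torsion, in any codimension. We show that a positive answer for
the Kummer varieties of two varieties and of their product implies that the exterior products of the
homologically trivial cycles on the two varieties vanish.
-/

open CategoryTheory AlgebraicGeometry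

universe u v w

namespace Pool.Agent.Results.MP_32dfd1_ag.KummerProducts

open Pool.Agent.H914 Pool.Agent.H914.VarClass Pool.Agent.H914.VarClass.Obj Pool.Agent.W492.BB
  Pool.Agent.TH133 Pool.Agent.Q28.PV Pool.Agent.Q28.AL Pool.Agent.Q50.KV

/-- **Exterior products.** Let `C` be the Chow theory with rational coefficients and `H` a Weil
cohomology theory on the smooth projective varieties over an algebraically closed field.
`Question H Y m` is the statement of the problem: if `H^(2m-1)(Y) = 0` then `CH^m(Y)_hom = 0`.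

1. Let `Y₁`, `Y₂` and `Z` be the Kummer varieties of the varieties with involution `(X₁, σ₁)`,
  `(X₂, σ₂)` and `(X₁ × X₂, σ₁ × σ₂)`. If the question has a positive answer for `Y₁` and `i`, for
  `Y₂` and `j`, and for `Z` and `i + j`, then `x × y = 0` for all `x ∈ CH^i(X₁)_hom` and
  `y ∈ CH^j(X₂)_hom`.
2. Let `Ab` be a class of varieties `A` with involutions `s A`, closed under products with
  `s (A × B) = s A × s B`, and let `Km A` be a Kummer variety of `(A, s A)` for each of them (for
  example the abelian varieties with `-1`). If the question has a positive answer for all `Km A` and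
  all codimensions, then `x × y = 0` for all `A`, `B` in `Ab` and all homologically trivial `x` on `A`
  and `y` on `B`, and `(s A)^* x = -x` for all of them. -/
theorem result {k : Type u} [Field k] {𝒱 : VarClass k} {C : TheoryData.{u, v, 0} 𝒱 ℚ}
    [IsChowProj C] {K : Type w} [Field K] {H : WeilTheoryData.{u, v, w} C K} [IsWeilProj H] :
    (∀ (X₁ X₂ Y₁ Y₂ Z : 𝒱.Obj) (σ₁ : X₁ ⟶ X₁) (σ₂ : X₂ ⟶ X₂), IsKummer H σ₁ Y₁ →
      IsKummer H σ₂ Y₂ → IsKummer H (prodMap σ₁ σ₂) Z → ∀ i j : ℕ, Question H Y₁ i →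
        Question H Y₂ j → Question H Z (i + j) → ∀ (x : C.A X₁) (y : C.A X₂),
          HomTriv H X₁ i x → HomTriv H X₂ j y → C.ext x y = 0) ∧
    ∀ (Ab : 𝒱.Obj → Prop) (s : ∀ A : 𝒱.Obj, A ⟶ A) (Km : 𝒱.Obj → 𝒱.Obj),
      (∀ A B, Ab A → Ab B → Ab (A.prod B) ∧ s (A.prod B) = prodMap (s A) (s B)) →
      (∀ A, Ab A → IsKummer H (s A) (Km A)) → (∀ A, Ab A → ∀ m : ℕ, Question H (Km A) m) →
        ∀ A B : 𝒱.Obj, Ab A → Ab B → ∀ (i j : ℕ) (x : C.A A) (y : C.A B), HomTriv H A i x →
          HomTriv H B j y → C.ext x y = 0 ∧ C.up (s A) x = -x := by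
  have key : ∀ (X₁ X₂ Y₁ Y₂ Z : 𝒱.Obj) (σ₁ : X₁ ⟶ X₁) (σ₂ : X₂ ⟶ X₂), IsKummer H σ₁ Y₁ →
      IsKummer H σ₂ Y₂ → IsKummer H (prodMap σ₁ σ₂) Z → ∀ i j : ℕ, Question H Y₁ i →
        Question H Y₂ j → Question H Z (i + j) → ∀ (x : C.A X₁) (y : C.A X₂),
          HomTriv H X₁ i x → HomTriv H X₂ j y → C.ext x y = 0 := by
    intro X₁ X₂ Y₁ Y₂ Z σ₁ σ₂ h₁ h₂ hZ i j q₁ q₂ q x y hx hy
    exact ext_zero h₁.1.1 h₂.1.1 ((question_iff h₁ i).1 q₁) ((question_iff h₂ j).1 q₂)
      ((question_iff hZ (i + j)).1 q) hx hy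
  refine ⟨key, ?_⟩
  intro Ab s Km hP hK hQ A B hA hB i j x y hx hy
  have hZ := hK _ (hP A B hA hB).1
  have hQZ := hQ _ (hP A B hA hB).1
  rw [(hP A B hA hB).2] at hZ
  refine ⟨key _ _ _ _ _ _ _ (hK A hA) (hK B hB) hZ i j (hQ A hA i) (hQ B hB j) (hQZ (i + j)) x y
    hx hy, ?_⟩
  have h1 := (question_iff (hK A hA) i).1 (hQ A hA i)
  have h3 : x + C.pull (s A) x = 0 := by
    refine h1 _ (hx.add (homPull hx _)) ?_
    change C.pull (s A) (x + C.pull (s A) x) = x + C.pull (s A) x
    rw [map_add, ← C.pull_comp, (hK A hA).1.1, C.pull_id, add_comm]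
  rw [add_comm] at h3
  exact eq_neg_of_add_eq_zero_left h3

end Pool.Agent.Results.MP_32dfd1_ag.KummerProducts
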