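import Pool.Agent.Q50.KV.Main

/-!
# Zero-cycles on Kummer varieties and Beilinson's conjecture for abelian varieties

Let `A` be an abelian variety over an algebraically closed field such as the algebraic numbers, and
`Km A` its Kummer variety, the quotient by `-1` of the blow-up of `A` in the points of order two. It
has no odd cohomology, so the question of the problem predicts that every zero-cycle of degree zero on
`Km A` is torsion. We show that this holds for all `Km A` if and only if the Albanese kernels of all
abelian varieties vanish modulo torsion (a conjecture of Beilinson), and if and only if all products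
of two algebraically trivial cycles, of any codimensions, on all varieties vanish.
-/

open CategoryTheory AlgebraicGeometry

universe u v w

namespace Pool.Agent.Results.MP_32dfd1_ag.KummerZeroCycles

open Pool.Agent.H914 Pool.Agent.H914.VarClass Pool.Agent.H914.VarClass.Obj Pool.Agent.W492.BB
  Pool.Agent.TH133 Pool.Agent.Q28.PV Pool.Agent.Q28.AL Pool.Agent.Q50.KV

/-- **Zero-cycles on Kummer varieties.** Let `C` be the Chow theory with rational coefficients and `H`
a Weil cohomology theory on the smooth projective varieties over an algebraically closed field, `Ab`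
the class of abelian varieties, `neg A` the involution `-1` and `Km A` the Kummer variety of `A`
(`hF`, `hK`: well-known facts). `Question H Y m` is the statement of the problem: if
`H^(2m-1)(Y) = 0` then `CH^m(Y)_hom = 0`. Equivalent:

1. the question has a positive answer for zero-cycles on all Kummer varieties `Km A`;
2. `F^2(A) = 0` for all abelian varieties;
3. `F^2(T × T') = 0` for all curves `T`, `T'`;
4. `CH^i(X)_alg · CH^j(X)_alg = 0` for all varieties `X` and all `i`, `j`. -/
theorem result {k : Type u} [Field k] {𝒱 : VarClass k} {C : TheoryData.{u, v, 0} 𝒱 ℚ}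
    [IsChowProj C] {K : Type w} [Field K] {H : WeilTheoryData.{u, v, w} C K} [IsWeilProj H]
    {Ab : 𝒱.Obj → Prop} {neg : ∀ A : 𝒱.Obj, A ⟶ A} {Km : 𝒱.Obj → 𝒱.Obj}
    (hF : Facts H Ab) (hK : KummerFacts H Ab neg Km) :
    [∀ A, Ab A → Question H (Km A) A.dim,
      ∀ (A : 𝒱.Obj) (z : C.A A), Ab A → AlbKernel H A z → z = 0,
      ∀ (T T' : 𝒱.Obj) (z : C.A (T.prod T')), T.dim = 1 → T'.dim = 1 →
        AlbKernel H (T.prod T') z → z = 0,
      ∀ (X : 𝒱.Obj) (i j : ℕ) (x y : C.A X), AlgTriv H X i x → AlgTriv H X j y →
        C.mul x y = 0].TFAE :=
  zero_tfae hF hK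

end Pool.Agent.Results.MP_32dfd1_ag.KummerZeroCycles
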