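import Pool.Agent.Q296.HY.Main

/-!
# Homologically trivial cycles on products of hypersurfaces over the algebraic numbers

The question for a smooth projective variety `X` over the field of algebraic numbers: for all
`m ≥ 1` with `H^(2m-1)(X) = 0`, is `CH^m_hom(X)_ℚ = 0`? We prove that the answer is positive for ALL
finite products `X_1 × ⋯ × X_r` of smooth hypersurfaces, of any dimensions (of both parities) and
degrees, and for all `m`, if and only if it is positive for the single hypersurfaces

  `W : f(x_0, …, x_(a+1)) + y_1^d + y_2^d + ⋯ + y_(2k)^d = 0`, `a ≤ ω(n)`, `n = dim W`,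

and the codimensions `m` near the middle, `|2 m - n| ≤ φ(n)`, for any set of pairs `(n, d)` with
arbitrarily large `n` of both parities and arbitrarily divisible `d`. Here `ω` and `φ` are any
functions which tend to infinity, however slowly, so almost all variables of `W` are diagonal. For
instance, the vanishing of the Albanese kernel for all products of hypersurfaces with `H^1 = 0`,
cycles of dimension zero, is decided by cycles of dimension close to `n/2` on such `W`.
-/

open CategoryTheory MonoidalCategory

universe v u w

namespace Pool.Agent.Results.MP_32dfd1_ag.ProductsOfHypersurfaces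

open Pool.Agent.Q296.HY

/-- **Homologically trivial cycles on products of hypersurfaces over the algebraic numbers.** Let `T`
be the category of Chow motives and the smooth hypersurfaces over the field of algebraic numbers
(`hT`: known facts). Let `S` be a set of pairs `(n, d)` which contains, for all `N` and `D` and both
parities, a pair with `n ≥ N` and `D ∣ d`, and let `ω, φ : ℕ → ℕ` tend to infinity. The following
statements are equivalent.

1. `CH^m_hom(W)_ℚ = 0` for all hypersurfaces `W` with `(dim W, deg W) ∈ S` which are iterated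
  suspensions `f(x) + y_1^d + ⋯ + y_(2k)^d = 0` of hypersurfaces `X : f(x) = 0` with
  `dim X ≤ ω(dim W)`, and all `m` with `2 m - 1 ≠ dim W` and `|2 m - dim W| ≤ φ(dim W)`.
2. For all smooth hypersurfaces `X` and all `m ≥ 1` with `H^(2m-1)(X) = 0` one has
  `CH^m_hom(X)_ℚ = 0`.
3. For all finite products `P` of smooth hypersurfaces, of any dimensions and degrees, and all
  `m ≥ 1` with `H^(2m-1)(P) = 0` one has `CH^m_hom(P)_ℚ = 0`.
4. For all tensor products `M` of primitive motives of smooth hypersurfaces, of weight `N`, one has
  `CH^m_hom(M)_ℚ = 0` for all `m` with `2 m - 1 ≠ N`. -/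
theorem result {𝓜 : Type u} [Category.{v} 𝓜] [Preadditive 𝓜] [MonoidalCategory 𝓜]
    [MonoidalPreadditive 𝓜] [BraidedCategory 𝓜] {T : ChowData.{v, u, w} 𝓜} (hT : T.Facts)
    (S : Set (ℕ × ℕ)) (hS : BothCofinal S) (ω φ : ℕ → ℕ)
    (hω : Filter.Tendsto ω Filter.atTop Filter.atTop)
    (hφ : Filter.Tendsto φ Filter.atTop Filter.atTop) :
    [∀ X W : T.Hyp, Relation.ReflTransGen T.Susp X W → (T.dim W, T.deg W) ∈ S →
        T.dim X ≤ ω (T.dim W) → ∀ m, 2 * m ≠ T.dim W + 1 → 2 * m ≤ T.dim W + φ (T.dim W) →
          T.dim W ≤ 2 * m + φ (T.dim W) → T.Trivial m (T.mot W),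
      ∀ X : T.Hyp, T.Question (T.mot X),
      ∀ P : 𝓜, T.IsVar P → T.Question P,
      ∀ (N : ℕ) (M : 𝓜), T.IsProd N M → ∀ i, 2 * i ≠ N + 1 → T.Trivial i M].TFAE :=
  ChowData.final hT S hS ω φ hω hφ

end Pool.Agent.Results.MP_32dfd1_ag.ProductsOfHypersurfaces
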